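import Pool.Agent.UMG.StmtsB

set_option autoImplicit false

namespace Pool.Agent.UMG.B.H3

open Finset Pool.Agent.UMG Pool.Agent.UMG.B

/-- **REA** of squad UMG, block B. -/
theorem rea : ReaStmt := by
  intro n B hB
  have hsym : ∀ v w, tw B v w = tw B w v := by
    intro v w
    unfold tw
    rw [hB v w]
    by_cases h : v = w
    · subst h
      rfl
    · rw [if_neg h, if_neg (fun h' => h h'.symm)]
  let H : Type := Σ v : Fin n, Σ w : Fin n, Fin (tw B v w)
  let m : H → H := fun h => ⟨h.2.1, h.1, ⟨tw B h.1 h.2.1 - 1 - (h.2.2 : ℕ), by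
    have h1 := h.2.2.isLt
    have h2 := hsym h.1 h.2.1
    omega⟩⟩
  refine ⟨H, inferInstance, fun h => h.1, m, ?_, ?_, ?_⟩
  · rintro ⟨v, w, t⟩
    have h1 := t.isLt
    have h2 := hsym v w
    have h3 : (⟨tw B w v - 1 - (tw B v w - 1 - (t : ℕ)), by omega⟩ : Fin (tw B v w)) = t :=
      Fin.ext (by show tw B w v - 1 - (tw B v w - 1 - (t : ℕ)) = t; omega)
    exact congrArg (fun s => (⟨v, w, s⟩ : H)) h3
  · rintro ⟨v, w, t⟩ he
    have h1 : w = v := congrArg (fun h : H => h.1) he
    have h2 : tw B v w - 1 - (t : ℕ) = t := congrArg (fun h : H => (h.2.2 : ℕ)) he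
    have h3 := t.isLt
    subst h1
    have h4 : tw B w w = 2 * B w w := if_pos rfl
    omega
  · intro v w
    unfold QQ
    have e : {h : H // h.1 = v ∧ (m h).1 = w} ≃ Fin (tw B v w) :=
      { toFun := fun h => ⟨(h.1.2.2 : ℕ), by
          obtain ⟨⟨v', w', t⟩, h1, h2⟩ := h
          have h1 : v' = v := h1
          have h2 : w' = w := h2
          subst h1 h2
          exact t.isLt⟩
        invFun := fun t => ⟨⟨v, w, t⟩, rfl, rfl⟩
        left_inv := by
          rintro ⟨⟨v', w', t⟩, h1, h2⟩
          have h1 : v' = v := h1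
          have h2 : w' = w := h2
          subst h1 h2
          rfl
        right_inv := fun t => rfl }
    rw [Nat.card_congr e, Nat.card_eq_fintype_card, Fintype.card_fin]

end Pool.Agent.UMG.B.H3
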