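import Pool.Agent.UMG.StmtsD

set_option autoImplicit false

namespace Pool.Agent.UMG.D.H3

open Finset

/-- **SCP** of squad UMG, block D. -/
theorem scp (cdv : CdvStmt) : ScpStmt := by
  intro K d c hc
  unfold scl SCL
  rw [Finset.prod_mul_distrib, Finset.prod_pow_eq_pow_sum,
    (cdv d c hc).2.1 (K + d.sum) (by omega)]
  congr 1
  rw [Finset.prod_range_add]
  have h1 : ∏ x ∈ range d.sum, (if K + x < K then WW d.sum (K + x + 1) else 1) = 1 :=
    Finset.prod_eq_one fun x _ => if_neg (by omega)
  rw [h1, mul_one]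
  exact Finset.prod_congr rfl fun x hx => if_pos (Finset.mem_range.mp hx)

end Pool.Agent.UMG.D.H3
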