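import Pool.Agent.UMG.StmtsA

set_option autoImplicit false

namespace Pool.Agent.UMG.H3

open Finset

/-- **TAN** of squad UMG. -/
theorem tan (sqm : SqmStmt) : TanStmt := by
  intro M j c hc
  have hpos : ∀ i, 0 < sq M j i := fun i => (sqm M j i i le_rfl).1
  have hmono : ∀ i i', i ≤ i' → sq M j i ≤ sq M j i' := fun i i' h => (sqm M j i i' h).2
  have hF : ∀ c, 0 < Fh M j c := fun c => Finset.prod_pos fun i _ => hpos _
  have hterm : ∀ b c, ct M j b * sq M j (b + 1) ^ c ≤ Fh M j c := by
    intro b c
    have hs := hpos (b + 1)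
    rcases le_or_gt b c with h | h
    · obtain ⟨m, rfl⟩ := Nat.exists_eq_add_of_le h
      have h1 : ct M j b * sq M j (b + 1) ^ (b + m) = Fh M j b * sq M j (b + 1) ^ m := by
        unfold ct
        rw [pow_add]
        field_simp
      have h2 : Fh M j (b + m) = Fh M j b * ∏ i ∈ range m, sq M j (b + i + 1) := by
        unfold Fh
        rw [Finset.prod_range_add]
      rw [h1, h2]
      refine mul_le_mul_of_nonneg_left ?_ (hF b).le
      calc sq M j (b + 1) ^ m = ∏ _i ∈ range m, sq M j (b + 1) := by simp
        _ ≤ _ := Finset.prod_le_prod (fun i _ => hs.le) fun i _ => hmono _ _ (by omega)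
    · obtain ⟨m, rfl⟩ := Nat.exists_eq_add_of_le h.le
      have h1 : ct M j (c + m) * sq M j (c + m + 1) ^ c = Fh M j (c + m) / sq M j (c + m + 1) ^ m := by
        unfold ct
        rw [pow_add]
        field_simp
      have h2 : Fh M j (c + m) = Fh M j c * ∏ i ∈ range m, sq M j (c + i + 1) := by
        unfold Fh
        rw [Finset.prod_range_add]
      rw [h1, div_le_iff₀ (pow_pos hs m), h2]
      refine mul_le_mul_of_nonneg_left ?_ (hF c).le
      calc ∏ i ∈ range m, sq M j (c + i + 1) ≤ ∏ _i ∈ range m, sq M j (c + m + 1) :=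
            Finset.prod_le_prod (fun i _ => (hpos _).le) fun i hi => by
              have := Finset.mem_range.mp hi
              exact hmono _ _ (by omega)
        _ = _ := by simp
  have hct : ∀ b, 0 ≤ ct M j b := fun b => div_nonneg (hF b).le (pow_nonneg (hpos _).le _)
  constructor
  · have h1 : ct M j c * sq M j (c + 1) ^ c = Fh M j c := by
      unfold ct
      exact div_mul_cancel₀ _ (pow_pos (hpos _) c).ne'
    rw [← h1]
    exact Finset.single_le_sum (f := fun b => ct M j b * sq M j (b + 1) ^ c)
      (fun b _ => mul_nonneg (hct b) (pow_nonneg (hpos _).le _)) (Finset.mem_range.mpr (by omega))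
  · calc Gr M j c ≤ ∑ _b ∈ range (M + 1), Fh M j c := Finset.sum_le_sum fun b _ => hterm b c
      _ = ((M : ℝ) + 1) * Fh M j c := by
        rw [Finset.sum_const, Finset.card_range, nsmul_eq_mul]
        push_cast
        ring

end Pool.Agent.UMG.H3
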