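import Pool.Agent.UMG.StmtsD

set_option autoImplicit false

namespace Pool.Agent.UMG.D.H3

open Finset

theorem csum_mul {R : Type} [CommSemiring R] (a : R) : ∀ (k : ℕ) (Ψ : List ℕ → R),
    csum k (fun p => a * Ψ p) = a * csum k Ψ := by
  intro k
  induction k using Nat.strong_induction_on with
  | _ k ih =>
    intro Ψ
    cases k with
    | zero => rw [csum, csum]
    | succ k =>
      rw [csum, csum, Finset.mul_sum]
      refine Finset.sum_congr rfl fun i hi => ?_
      rw [ih (k - i) (by omega)]
      ring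

theorem gsum_mul {R : Type} [CommSemiring R] (a : R) : ∀ (n : ℕ) (d : List ℕ), d.length ≤ n →
    ∀ Ψ : Code → R, gsum d (fun c => a * Ψ c) = a * gsum d Ψ := by
  intro n
  induction n with
  | zero =>
    intro d hd Ψ
    cases d with
    | nil => rw [gsum, gsum]
    | cons k t => simp at hd
  | succ n ih =>
    intro d hd Ψ
    cases d with
    | nil => rw [gsum, gsum]
    | cons k t =>
      rw [gsum, gsum, Finset.mul_sum]
      refine Finset.sum_congr rfl fun i hi => ?_
      have h1 : (t.drop i).length ≤ n := by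
        rw [List.length_cons] at hd
        rw [List.length_drop]
        omega
      have h2 : (fun p => gsum (t.drop i) (fun c => a * Ψ ((i + 1, p) :: c))) =
          fun p => a * gsum (t.drop i) (fun c => Ψ ((i + 1, p) :: c)) := by
        funext p
        exact ih (t.drop i) h1 (fun c => Ψ ((i + 1, p) :: c))
      rw [h2, csum_mul]
      ring

/-- **TTG** of squad UMG, block D. -/
theorem ttg (una : UnaStmt) (gln : GlnStmt) (gcd : GcdStmt) (wyb : WybStmt) (cdv : CdvStmt)
    (ypr : YprStmt) (ygr : YgrStmt) (scp : ScpStmt) : TtgStmt := by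
  intro K d hd
  have h1 : ∀ (x : ℕ → ℕ) (W : ℕ), W * Aint x d = gsum d (fun c => W * wt x c) := by
    intro x W
    have := una x d W (fun _ _ _ => 1)
    simpa using this
  have h2 : ∀ c : Code, ∑ g ∈ range ((d.sum + 1) ^ K), ∏ j ∈ range (K + d.sum), YB d.sum K g c j =
      ∏ j ∈ range (K + d.sum), Yt d.sum K c j := by
    intro c
    have := ypr d.sum K c (fun _ _ => 1)
    simpa using this
  have h3 : TT K d = gsum d (fun c => ∏ j ∈ range (K + d.sum), Yt d.sum K c j) := by
    unfold TT
    rw [Finset.sum_congr rfl (fun g _ => h1 (fX d.sum K g) (cfg d.sum K g))]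
    rw [← (gln d).2.1 ℕ (range ((d.sum + 1) ^ K)) (fun g c => cfg d.sum K g * wt (fX d.sum K g) c)]
    refine gcd ℕ d _ _ hd fun c hc => ?_
    rw [← h2 c]
    refine Finset.sum_congr rfl fun g _ => ?_
    exact wyb d.sum K g c ((cdv d c hc).1 0)
  rw [h3, (gln d).2.2]
  rw [← gsum_mul (SCL K d : ℝ) d.length d le_rfl]
  refine gcd ℝ d _ _ hd fun c hc => ?_
  rw [← scp K d c hc, Nat.cast_prod, Nat.cast_prod, ← Finset.prod_mul_distrib]
  exact Finset.prod_congr rfl fun j _ => ygr d.sum K c j

end Pool.Agent.UMG.D.H3
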